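import Pool.Agent.Q152.MS.Div
import Pool.Agent.Q152.MS.Crt
import Pool.Agent.Q152.MS.ConP
import Pool.Agent.Q152.MS.Low
import Pool.Agent.H732R3.QuarterB

/-!
# Divisibility among the sums of two consecutive primes

Let `S i = p_i + p_(i+1)` (`p_1 = 2`). There is a positive integer `m` such that every `t` prime to `m` has the property that `2 t` divides `S k` for
infinitely many `k`. So every `S n`, `n ≥ 2`, with `S n / 2` prime to `m` divides infinitely many `S k`, and these `n` have positive lower density.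
-/

set_option autoImplicit false

namespace Pool.Agent.Results.MP_7a4080_nt.CoprimeModuli

/-- The sum of the `i`-th and the `(i + 1)`-th prime, `i ≥ 1` (`Nat.nth Nat.Prime 0 = 2` is the first prime). -/
noncomputable def S (i : ℕ) : ℕ := Nat.nth Nat.Prime (i - 1) + Nat.nth Nat.Prime i

open Classical in
/-- (1) There is `m ≥ 1` such that `2 t` divides infinitely many `S k` for every `t` prime to `m`, and `S n` divides infinitely many `S k` for every `n ≥ 2`
with `S n / 2` prime to `m`. (2) The `n` for which `S n` divides infinitely many `S k` have positive lower density. -/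
theorem result :
    (∃ m : ℕ, 1 ≤ m ∧ (∀ t : ℕ, Nat.Coprime t m → {k : ℕ | 2 * t ∣ S k}.Infinite) ∧
      (∀ n : ℕ, 2 ≤ n → Nat.Coprime (S n / 2) m → {k : ℕ | S n ∣ S k}.Infinite)) ∧
    (∃ c : ℝ, 0 < c ∧ ∃ x₀ : ℕ, ∀ x : ℕ, x₀ ≤ x →
      c * x ≤ (((Finset.Icc 1 x).filter (fun n : ℕ => {k : ℕ | S n ∣ S k}.Infinite)).card : ℝ)) := by
  obtain ⟨m, hm, -, hgood⟩ := Pool.Agent.Q152.MSD.exists_modulus
    (Pool.Agent.Q152.MSD.con Pool.Agent.Q152.MSD.crt Pool.Agent.H732R3.BigQ.quarterB)
  refine ⟨⟨m, hm, fun t ht => Pool.Agent.Q152.MSD.good_infinite (hgood t ht), ?_⟩, ?_⟩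
  · intro n hn ht
    have h1 := Pool.Agent.Q152.MSD.good_infinite (hgood _ ht)
    have h2 : 2 * (S n / 2) = S n := Nat.mul_div_cancel' (Pool.Agent.Q152.MSD.S_even hn)
    rw [h2] at h1
    exact h1
  · exact Pool.Agent.Q152.MSD.density Pool.Agent.Q152.MSD.low m hm hgood

end Pool.Agent.Results.MP_7a4080_nt.CoprimeModuli
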